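import Pool.Agent.TH173.RT.Near
import Pool.Agent.TH173.RT.Mono

/-!
# Rescaled Turán densities of complete hypergraphs: `t_*(k,r-1) ≤ t_*(k,r)` near the diagonal

`turanNumber n k r` is the least number of `r`-subsets of an `n`-set such that every `k`-subset
contains one of them, `turanDensity k r` is the limit `t(k,r)` of `turanNumber n k r / C(n,r)` and
`rescaled k r = (k-1)^(r-1) / r! * t(k,r)`.

We prove `(k - 1) t_*(k,r-1) ≤ 9 (k-r+1)^2 (log k) t_*(k,r)` for all `3 ≤ r ≤ k`. So
`t_*(k,r-1) ≤ t_*(k,r)` as soon as `9 (k-r+1)^2 log k ≤ k - 1`, that is for all `k` between `r` and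
`r + c (r / log r)^(1/2)`, and there even `t_*(k,r-1) = o(t_*(k,r))`.

Proof. Averaging gives `t(k,r) ≥ 1 / C(k,r)`. For the upper bound on `t(k,r-1)`, `s = r - 1`, the
vertices are divided into `M = k^5` parts and, independently, into a very large number `N` of parts.
A greedy family `T` of `s`-sets of parts of the first kind hits all `k`-sets of parts; it takes care
of all `k`-sets of vertices in different parts of the first kind and has density about
`5 (k-s) log k / C(k,s)`, since `M` is not too large. A `k`-set with two vertices in the same part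
of the first kind contains an `s`-set with the same property that comes from a greedy family `T'`
of `s`-sets of parts of the second kind which hits all `k`-sets of parts between any pair and the
`k`-set; its density is larger by a factor `k^2`, but only the fraction `k^2 / M` of it is used.
The `k`-sets with two vertices in the same part of the second kind have negligible density.
-/

set_option autoImplicit false
open Finset Filter Topology

namespace Pool.Agent.Results.MP_1e26d1_co.NearDiagonal

/-- `E` is a family of `r`-sets and every `k`-set of vertices contains a member of `E`: the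
`r`-graph `E` has independence number less than `k`. -/
def Covers {V : Type} (k r : ℕ) (E : Finset (Finset V)) : Prop :=
  (∀ e ∈ E, e.card = r) ∧ ∀ S : Finset V, S.card = k → ∃ e ∈ E, e ⊆ S

/-- The Turán number `T(n,k,r)`. -/
noncomputable def turanNumber (n k r : ℕ) : ℕ :=
  sInf {m | ∃ E : Finset (Finset (Fin n)), Covers k r E ∧ E.card = m}

/-- The Turán density `t(k,r)`, the limit of `T(n,k,r) / C(n,r)`. -/
noncomputable def turanDensity (k r : ℕ) : ℝ :=
  limUnder atTop fun n : ℕ => (turanNumber n k r : ℝ) / (n.choose r : ℝ)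

/-- The rescaled Turán density `t_*(k,r) = (k-1)^(r-1) / r! * t(k,r)`. -/
noncomputable def rescaled (k r : ℕ) : ℝ :=
  ((k : ℝ) - 1) ^ (r - 1) / (r.factorial : ℝ) * turanDensity k r

theorem isLimit {k r : ℕ} (hrk : r ≤ k) :
    Tendsto (fun n : ℕ => (turanNumber n k r : ℝ) / (n.choose r : ℝ)) atTop
      (𝓝 (turanDensity k r)) := by
  obtain ⟨t, ht⟩ := Pool.Agent.TH173.RT.exists_dens hrk
  have h : Tendsto (fun n : ℕ => (turanNumber n k r : ℝ) / (n.choose r : ℝ)) atTop (𝓝 t) := ht
  unfold turanDensity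
  rw [h.limUnder_eq]
  exact h

theorem log_ge {k : ℕ} (hk : 3 ≤ k) : 1 ≤ Real.log k := by
  have h1 : Real.exp 1 < 3 := Real.exp_one_lt_d9.trans (by norm_num)
  have h2 : (3 : ℝ) ≤ (k : ℝ) := by exact_mod_cast hk
  rw [Real.le_log_iff_exp_le (by linarith)]
  linarith

theorem ratio {k r : ℕ} (hr : 3 ≤ r) (hrk : r ≤ k) :
    ((k : ℝ) - 1) * rescaled k (r - 1) ≤
      9 * ((k : ℝ) - r + 1) ^ 2 * Real.log k * rescaled k r := by
  have h1 : Pool.Agent.TH173.RT.Dens k (r - 1) (turanDensity k (r - 1)) :=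
    isLimit (by omega)
  have h2 : Pool.Agent.TH173.RT.Dens k r (turanDensity k r) := isLimit hrk
  have h3 := Pool.Agent.TH173.RT.near2 hr hrk h1 h2
  have e1 : r - 1 - 1 = r - 2 := by omega
  have e2 : ((k - (r - 1) : ℕ) : ℝ) = (k : ℝ) - r + 1 := by
    rw [Nat.cast_sub (by omega), Nat.cast_sub (by omega)]
    push_cast
    ring
  have hlog := log_ge (hr.trans hrk)
  have hb : (1 : ℝ) ≤ (k : ℝ) - r + 1 := by
    have : (r : ℝ) ≤ (k : ℝ) := by exact_mod_cast hrk
    linarith
  have h0 : 0 ≤ rescaled k r := by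
    have h4 := Pool.Agent.TH173.RT.dens_lower hrk h2
    have h5 : (0 : ℝ) < (k.choose r : ℝ) := by exact_mod_cast Nat.choose_pos hrk
    have h6 : 0 ≤ turanDensity k r := le_trans (by positivity) h4
    have h7 : (0 : ℝ) ≤ (k : ℝ) - 1 := by
      have : (1 : ℝ) ≤ (k : ℝ) := by
        have : 1 ≤ k := by omega
        exact_mod_cast this
      linarith
    unfold rescaled
    positivity
  unfold rescaled at h0 ⊢
  rw [e1]
  rw [e2] at h3
  refine h3.trans (mul_le_mul_of_nonneg_right ?_ h0)
  set b : ℝ := (k : ℝ) - r + 1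
  have h4 : b ≤ b ^ 2 * Real.log k := by
    calc b = b * 1 := by ring
      _ ≤ b * (b * Real.log k) :=
          mul_le_mul_of_nonneg_left (by nlinarith) (by linarith)
      _ = b ^ 2 * Real.log k := by ring
  calc b * (4 + 5 * b * Real.log k) = 4 * b + 5 * (b ^ 2 * Real.log k) := by ring
    _ ≤ 4 * (b ^ 2 * Real.log k) + 5 * (b ^ 2 * Real.log k) := by linarith
    _ = 9 * b ^ 2 * Real.log k := by ring

theorem rescaled_pos {k r : ℕ} (hr : 3 ≤ r) (hrk : r ≤ k) : 0 < rescaled k r := by
  have h2 : Pool.Agent.TH173.RT.Dens k r (turanDensity k r) := isLimit hrk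
  have h4 := Pool.Agent.TH173.RT.dens_lower hrk h2
  have h5 : (0 : ℝ) < (k.choose r : ℝ) := by exact_mod_cast Nat.choose_pos hrk
  have h6 : 0 < turanDensity k r := lt_of_lt_of_le (by positivity) h4
  have h7 : (0 : ℝ) < (k : ℝ) - 1 := by
    have : (3 : ℝ) ≤ (k : ℝ) := by exact_mod_cast hr.trans hrk
    linarith
  unfold rescaled
  positivity

theorem result :
    (∀ k r : ℕ, r ≤ k →
      Tendsto (fun n : ℕ => (turanNumber n k r : ℝ) / (n.choose r : ℝ)) atTop
        (𝓝 (turanDensity k r))) ∧
    (∀ k r : ℕ, 3 ≤ r → r ≤ k →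
      0 < rescaled k r ∧
      ((k : ℝ) - 1) * rescaled k (r - 1) ≤
        9 * ((k : ℝ) - r + 1) ^ 2 * Real.log k * rescaled k r) ∧
    (∀ k r : ℕ, 3 ≤ r → r ≤ k → 9 * ((k : ℝ) - r + 1) ^ 2 * Real.log k ≤ (k : ℝ) - 1 →
      rescaled k (r - 1) ≤ rescaled k r) := by
  refine ⟨fun k r h => isLimit h, fun k r h1 h2 => ⟨rescaled_pos h1 h2, ratio h1 h2⟩,
    fun k r h1 h2 h3 => ?_⟩
  have h4 := ratio h1 h2
  have h5 := rescaled_pos h1 h2
  have h6 : (0 : ℝ) < (k : ℝ) - 1 := by
    have : (3 : ℝ) ≤ (k : ℝ) := by exact_mod_cast h1.trans h2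
    linarith
  have h7 : ((k : ℝ) - 1) * rescaled k (r - 1) ≤ ((k : ℝ) - 1) * rescaled k r :=
    h4.trans (mul_le_mul_of_nonneg_right h3 h5.le)
  exact le_of_mul_le_mul_left h7 h6

end Pool.Agent.Results.MP_1e26d1_co.NearDiagonal
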